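import Mathlib

/-!
# Complements of 2-subdivisions are `B₁`-VPG graphs

Every finite simple graph `G` (planar or not) has an even subdivision, namely the one in which
every edge is replaced by a path with exactly two new inner vertices, whose complement is a
`B₁`-VPG graph.
-/

set_option autoImplicit false

namespace Pool.Agent.Results.MP_401231_co.EvenSubdivisionB1VPG

/-- A grid path with `len` grid edges: its grid points are `pt 0, …, pt len`, they are pairwise
distinct, and consecutive ones are the ends of a horizontal or vertical edge of the grid `ℤ²`. -/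
structure GridPath where
  /-- number of grid edges -/
  len : ℕ
  /-- the grid points `pt 0, …, pt len` (later values are irrelevant) -/
  pt : ℕ → ℤ × ℤ
  /-- consecutive points are joined by a grid edge -/
  step : ∀ i < len,
    ((pt i).2 = (pt (i + 1)).2 ∧ |(pt (i + 1)).1 - (pt i).1| = 1) ∨
    ((pt i).1 = (pt (i + 1)).1 ∧ |(pt (i + 1)).2 - (pt i).2| = 1)
  /-- no repeated grid point -/
  inj : ∀ i j, i ≤ len → j ≤ len → pt i = pt j → i = j

/-- The set of grid points of a grid path. -/
def GridPath.points (p : GridPath) : Set (ℤ × ℤ) := {q | ∃ i ≤ p.len, p.pt i = q}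

/-- The path switches between horizontal and vertical at its inner point number `i`. -/
def GridPath.IsBend (p : GridPath) (i : ℕ) : Prop :=
  0 < i ∧ i < p.len ∧
    (((p.pt (i - 1)).2 = (p.pt i).2 ∧ (p.pt i).1 = (p.pt (i + 1)).1) ∨
     ((p.pt (i - 1)).1 = (p.pt i).1 ∧ (p.pt i).2 = (p.pt (i + 1)).2))

/-- `H` is a `B₁`-VPG graph: its vertices can be assigned grid paths, each with at least one grid
edge and at most one bend, so that two distinct vertices are adjacent exactly when their paths
share a grid point. -/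
def IsB1VPG {W : Type*} (H : SimpleGraph W) : Prop :=
  ∃ s : W → GridPath, (∀ w, 0 < (s w).len ∧ ∀ i j, (s w).IsBend i → (s w).IsBend j → i = j) ∧
    ∀ a b : W, a ≠ b → (H.Adj a b ↔ ((s a).points ∩ (s b).points).Nonempty)

/-- `G'` is an even subdivision of `G`: the vertices `v` of `G` are identified with pairwise
distinct vertices `f v` of `G'`, every edge `uv` of `G` is replaced by a path `P u v` of `G'` from
`f u` to `f v` whose length is odd (so it has an even number of inner vertices); the inner vertices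
of the paths are new (not of the form `f x`), the paths of different edges share no inner vertex,
and every vertex and every edge of `G'` arises in this way. -/
def IsEvenSubdivision {V W : Type*} (G : SimpleGraph V) (G' : SimpleGraph W) : Prop :=
  ∃ (f : V → W) (P : ∀ u v : V, G.Adj u v → G'.Walk (f u) (f v)),
    Function.Injective f ∧
    (∀ u v (h : G.Adj u v), (P u v h).IsPath ∧ Odd (P u v h).length) ∧
    (∀ u v (h : G.Adj u v), P v u h.symm = (P u v h).reverse) ∧
    (∀ u v (h : G.Adj u v) x, f x ∈ (P u v h).support → x = u ∨ x = v) ∧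
    (∀ u v (h : G.Adj u v) u' v' (h' : G.Adj u' v'), ∀ w ∈ (P u v h).support,
      w ∈ (P u' v' h').support → w ∈ Set.range f ∨ s(u, v) = s(u', v')) ∧
    (∀ w, w ∈ Set.range f ∨ ∃ u v, ∃ h : G.Adj u v, w ∈ (P u v h).support) ∧
    (∀ e ∈ G'.edgeSet, ∃ u v, ∃ h : G.Adj u v, e ∈ (P u v h).edges)

/-! ### L-shaped grid paths -/

/-- The grid path with corner `(x, y)`, a horizontal arm with `A` edges in direction `σ` and a
vertical arm with `B` edges in direction `τ`. -/
def ell (x y σ τ : ℤ) (A B : ℕ) (hσ : σ = 1 ∨ σ = -1) (hτ : τ = 1 ∨ τ = -1) : GridPath where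
  len := A + B
  pt i := if i ≤ A then (x + σ * ((A : ℤ) - i), y) else (x, y + τ * ((i : ℤ) - A))
  step := by
    intro i hi
    by_cases h1 : i + 1 ≤ A
    · have h2 : i ≤ A := by omega
      left
      rw [if_pos h1, if_pos h2]
      refine ⟨rfl, ?_⟩
      simp only
      push_cast
      rcases hσ with rfl | rfl
      · rw [show x + 1 * ((A : ℤ) - (i + 1)) - (x + 1 * ((A : ℤ) - i)) = -1 by ring]; rfl
      · rw [show x + -1 * ((A : ℤ) - (i + 1)) - (x + -1 * ((A : ℤ) - i)) = 1 by ring]; rfl
    · right
      rw [if_neg h1]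
      by_cases h2 : i ≤ A
      · have h3 : i = A := by omega
        subst h3
        rw [if_pos h2]
        simp only
        push_cast
        refine ⟨by ring, ?_⟩
        rcases hτ with rfl | rfl
        · rw [show y + 1 * ((i : ℤ) + 1 - i) - y = 1 by ring]; rfl
        · rw [show y + -1 * ((i : ℤ) + 1 - i) - y = -1 by ring]; rfl
      · rw [if_neg h2]
        refine ⟨rfl, ?_⟩
        simp only
        push_cast
        rcases hτ with rfl | rfl
        · rw [show y + 1 * ((i : ℤ) + 1 - A) - (y + 1 * ((i : ℤ) - A)) = 1 by ring]; rfl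
        · rw [show y + -1 * ((i : ℤ) + 1 - A) - (y + -1 * ((i : ℤ) - A)) = -1 by ring]; rfl
  inj := by
    intro i j _ _ h
    by_cases h1 : i ≤ A <;> by_cases h2 : j ≤ A
    · rw [if_pos h1, if_pos h2, Prod.mk.injEq] at h
      rcases hσ with rfl | rfl <;> omega
    · rw [if_pos h1, if_neg h2, Prod.mk.injEq] at h
      rcases hτ with rfl | rfl <;> omega
    · rw [if_neg h1, if_pos h2, Prod.mk.injEq] at h
      rcases hτ with rfl | rfl <;> omega
    · rw [if_neg h1, if_neg h2, Prod.mk.injEq] at h
      rcases hτ with rfl | rfl <;> omega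

theorem mem_ell {x y σ τ : ℤ} {A B : ℕ} {hσ : σ = 1 ∨ σ = -1} {hτ : τ = 1 ∨ τ = -1}
    {q : ℤ × ℤ} : q ∈ (ell x y σ τ A B hσ hτ).points ↔
      (q.2 = y ∧ ∃ k : ℕ, k ≤ A ∧ q.1 = x + σ * k) ∨
      (q.1 = x ∧ ∃ k : ℕ, k ≤ B ∧ q.2 = y + τ * k) := by
  constructor
  · rintro ⟨i, hi, rfl⟩
    simp only [ell] at hi ⊢
    by_cases h1 : i ≤ A
    · rw [if_pos h1]
      refine Or.inl ⟨rfl, A - i, by omega, ?_⟩
      simp only
      rw [Nat.cast_sub h1]
    · rw [if_neg h1]
      refine Or.inr ⟨rfl, i - A, by omega, ?_⟩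
      simp only
      rw [Nat.cast_sub (by omega)]
  · rintro (⟨h1, k, hk, h2⟩ | ⟨h1, k, hk, h2⟩)
    · refine ⟨A - k, by simp only [ell]; omega, ?_⟩
      simp only [ell]
      rw [if_pos (by omega)]
      ext
      · simp only
        rw [h2, Nat.cast_sub hk]; ring
      · exact h1.symm
    · refine ⟨A + k, by simp only [ell]; omega, ?_⟩
      simp only [ell]
      by_cases h0 : k = 0
      · subst h0
        rw [if_pos (by omega)]
        ext
        · simp only
          rw [h1]; push_cast; ring
        · simp only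
          rw [h2]; push_cast; ring
      · rw [if_neg (by omega)]
        ext
        · exact h1.symm
        · simp only
          rw [h2]; push_cast; ring

theorem bend_ell {x y σ τ : ℤ} {A B : ℕ} {hσ : σ = 1 ∨ σ = -1} {hτ : τ = 1 ∨ τ = -1} {i : ℕ}
    (h : (ell x y σ τ A B hσ hτ).IsBend i) : i = A := by
  obtain ⟨h0, h1, h2⟩ := h
  simp only [ell] at h1 h2
  by_contra hne
  rcases Nat.lt_or_gt_of_ne hne with hlt | hgt
  · rw [if_pos (show i - 1 ≤ A by omega), if_pos (show i ≤ A by omega),
      if_pos (show i + 1 ≤ A by omega)] at h2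
    simp only [Nat.cast_sub (show 1 ≤ i by omega)] at h2
    push_cast at h2
    rcases hσ with rfl | rfl <;> omega
  · rw [if_neg (show ¬ i ≤ A by omega), if_neg (show ¬ i + 1 ≤ A by omega)] at h2
    by_cases h3 : i - 1 ≤ A
    · rw [if_pos h3] at h2
      simp only [Nat.cast_sub (show 1 ≤ i by omega)] at h2
      push_cast at h2
      rcases hσ with rfl | rfl <;> rcases hτ with rfl | rfl <;> omega
    · rw [if_neg h3] at h2
      simp only [Nat.cast_sub (show 1 ≤ i by omega)] at h2
      push_cast at h2
      rcases hσ with rfl | rfl <;> rcases hτ with rfl | rfl <;> omega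

/-! ### The subdivision -/

section Sub

variable {V : Type} (G : SimpleGraph V) (idx : V → ℕ)

/-- edges of `G`, directed from the end with smaller index to the end with larger index -/
abbrev E : Type := {e : V × V // idx e.1 < idx e.2 ∧ G.Adj e.1 e.2}

/-- vertices of the subdivision -/
abbrev W : Type := V ⊕ (E G idx ⊕ E G idx)

/-- adjacency of the subdivision -/
def adj' : W G idx → W G idx → Prop
  | Sum.inl v, Sum.inr (Sum.inl e) => v = e.1.1
  | Sum.inr (Sum.inl e), Sum.inl v => v = e.1.1
  | Sum.inl v, Sum.inr (Sum.inr e) => v = e.1.2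
  | Sum.inr (Sum.inr e), Sum.inl v => v = e.1.2
  | Sum.inr (Sum.inl e), Sum.inr (Sum.inr f) => e = f
  | Sum.inr (Sum.inr e), Sum.inr (Sum.inl f) => e = f
  | _, _ => False

/-- the subdivision: every edge is replaced by a path with two inner vertices -/
def sub : SimpleGraph (W G idx) where
  Adj := adj' G idx
  symm := ⟨by
    rintro (a | a | a) (b | b | b) h <;> simp only [adj'] at h ⊢ <;> first | exact h | exact h.symm⟩
  loopless := ⟨by
    rintro (a | a | a) h <;> exact h⟩

theorem adj1 (e : E G idx) : (sub G idx).Adj (Sum.inl e.1.1) (Sum.inr (Sum.inl e)) := by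
  unfold sub
  simp only [adj']

theorem adj2 (e : E G idx) : (sub G idx).Adj (Sum.inr (Sum.inl e)) (Sum.inr (Sum.inr e)) := by
  unfold sub
  simp only [adj']

theorem adj3 (e : E G idx) : (sub G idx).Adj (Sum.inr (Sum.inr e)) (Sum.inl e.1.2) := by
  unfold sub
  simp only [adj']

/-- the path of length three replacing an edge -/
def fw (u v : V) (h : idx u < idx v) (ha : G.Adj u v) :
    (sub G idx).Walk (Sum.inl u) (Sum.inl v) :=
  SimpleGraph.Walk.cons (adj1 G idx ⟨(u, v), h, ha⟩)
    (SimpleGraph.Walk.cons (adj2 G idx ⟨(u, v), h, ha⟩)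
      (SimpleGraph.Walk.cons (adj3 G idx ⟨(u, v), h, ha⟩) SimpleGraph.Walk.nil))

theorem fw_support (u v : V) (h : idx u < idx v) (ha : G.Adj u v) :
    (fw G idx u v h ha).support = [Sum.inl u, Sum.inr (Sum.inl ⟨(u, v), h, ha⟩),
      Sum.inr (Sum.inr ⟨(u, v), h, ha⟩), Sum.inl v] := rfl

theorem fw_length (u v : V) (h : idx u < idx v) (ha : G.Adj u v) :
    (fw G idx u v h ha).length = 3 := rfl

theorem fw_edges (u v : V) (h : idx u < idx v) (ha : G.Adj u v) :
    (fw G idx u v h ha).edges = [s(Sum.inl u, Sum.inr (Sum.inl ⟨(u, v), h, ha⟩)),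
      s(Sum.inr (Sum.inl ⟨(u, v), h, ha⟩), Sum.inr (Sum.inr ⟨(u, v), h, ha⟩)),
      s(Sum.inr (Sum.inr ⟨(u, v), h, ha⟩), Sum.inl v)] := rfl

variable {idx}

/-- the paths replacing the edges -/
def path (hidx : Function.Injective idx) (u v : V) (ha : G.Adj u v) :
    (sub G idx).Walk (Sum.inl u) (Sum.inl v) :=
  if h : idx u < idx v then fw G idx u v h ha
  else (fw G idx v u (lt_of_le_of_ne (not_lt.mp h) (fun e => ha.ne (hidx e).symm)) ha.symm).reverse

theorem even_sub (hidx : Function.Injective idx) : IsEvenSubdivision G (sub G idx) := by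
  refine ⟨Sum.inl, path G hidx, Sum.inl_injective, ?_, ?_, ?_, ?_, ?_, ?_⟩
  · intro u v ha
    unfold path
    split_ifs with h
    · refine ⟨?_, by rw [fw_length]; decide⟩
      rw [SimpleGraph.Walk.isPath_def, fw_support]
      have := ha.ne
      simp [this]
    · refine ⟨?_, by rw [SimpleGraph.Walk.length_reverse, fw_length]; decide⟩
      apply SimpleGraph.Walk.IsPath.reverse
      rw [SimpleGraph.Walk.isPath_def, fw_support]
      have := ha.ne
      simp [this.symm]
  · intro u v ha
    have hne : idx u ≠ idx v := fun e => ha.ne (hidx e)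
    unfold path
    split_ifs with h1 h2 h2
    · omega
    · rw [SimpleGraph.Walk.reverse_reverse]
    · rfl
    · omega
  · intro u v ha x hx
    unfold path at hx
    split_ifs at hx with h
    · rw [fw_support] at hx
      simpa using hx
    · rw [SimpleGraph.Walk.support_reverse, fw_support] at hx
      simp at hx
      tauto
  · have key : ∀ u v (ha : G.Adj u v) w, w ∈ (path G hidx u v ha).support →
        w ∈ Set.range (Sum.inl : V → W G idx) ∨ ∃ e : E G idx, s(e.1.1, e.1.2) = s(u, v) ∧
          (w = Sum.inr (Sum.inl e) ∨ w = Sum.inr (Sum.inr e)) := by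
      intro u v ha w hw
      unfold path at hw
      split_ifs at hw with h
      · rw [fw_support] at hw
        simp only [List.mem_cons, List.not_mem_nil, or_false] at hw
        rcases hw with hw | hw | hw | hw
        · exact Or.inl ⟨u, hw.symm⟩
        · exact Or.inr ⟨_, rfl, Or.inl hw⟩
        · exact Or.inr ⟨_, rfl, Or.inr hw⟩
        · exact Or.inl ⟨v, hw.symm⟩
      · rw [SimpleGraph.Walk.support_reverse, fw_support] at hw
        simp only [List.mem_reverse, List.mem_cons, List.not_mem_nil, or_false] at hw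
        rcases hw with hw | hw | hw | hw
        · exact Or.inl ⟨v, hw.symm⟩
        · exact Or.inr ⟨_, Sym2.eq_swap, Or.inl hw⟩
        · exact Or.inr ⟨_, Sym2.eq_swap, Or.inr hw⟩
        · exact Or.inl ⟨u, hw.symm⟩
    intro u v ha u' v' ha' w hw hw'
    rcases key u v ha w hw with h | ⟨e, he, h⟩
    · exact Or.inl h
    rcases key u' v' ha' w hw' with h' | ⟨e', he', h'⟩
    · exact Or.inl h'
    right
    have : e = e' := by
      rcases h with rfl | rfl <;> rcases h' with h' | h' <;> simp at h' <;> exact h'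
    rw [← he, ← he', this]
  · rintro (v | e | e)
    · exact Or.inl ⟨v, rfl⟩
    · refine Or.inr ⟨e.1.1, e.1.2, e.2.2, ?_⟩
      unfold path
      rw [dif_pos e.2.1, fw_support]
      simp
    · refine Or.inr ⟨e.1.1, e.1.2, e.2.2, ?_⟩
      unfold path
      rw [dif_pos e.2.1, fw_support]
      simp
  · intro e he
    induction e using Sym2.ind with
    | _ a b =>
      have he' : adj' G idx a b := by
        rw [SimpleGraph.mem_edgeSet] at he
        exact he
      have key : ∀ f : E G idx, ∀ z, z ∈ (fw G idx f.1.1 f.1.2 f.2.1 f.2.2).edges →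
          ∃ u v, ∃ h : G.Adj u v, z ∈ (path G hidx u v h).edges := by
        intro f z hz
        refine ⟨f.1.1, f.1.2, f.2.2, ?_⟩
        unfold path
        rw [dif_pos f.2.1]
        exact hz
      rcases a with a | a | a <;> rcases b with b | b | b <;> simp only [adj'] at he'
      · subst he'
        apply key b
        rw [fw_edges]
        simp
      · subst he'
        apply key b
        rw [fw_edges]
        simp [Sym2.eq_swap]
      · subst he'
        apply key a
        rw [fw_edges]
        simp [Sym2.eq_swap]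
      · subst he'
        apply key a
        rw [fw_edges]
        simp
      · subst he'
        apply key a
        rw [fw_edges]
        simp
      · subst he'
        apply key a
        rw [fw_edges]
        simp [Sym2.eq_swap]

/-! ### The representation -/

/-- rank of an edge: edges with larger first index come first -/
def rho (n : ℕ) (e : E G idx) : ℕ := (n - idx e.1.1) * (n + 1) + idx e.1.2

theorem rho_lt {n : ℕ} (hn : ∀ v, idx v < n) (e : E G idx) : rho G n e < (n + 1) * (n + 1) := by
  unfold rho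
  have h1 := hn e.1.2
  have h2 : (n - idx e.1.1) * (n + 1) ≤ n * (n + 1) := Nat.mul_le_mul_right _ (by omega)
  nlinarith

theorem rho_mono {n : ℕ} (hn : ∀ v, idx v < n) (e f : E G idx) (h : rho G n e ≤ rho G n f) :
    idx f.1.1 ≤ idx e.1.1 := by
  unfold rho at h
  by_contra hc
  push Not at hc
  have h1 := hn e.1.2
  have h2 := hn f.1.2
  have h3 := hn f.1.1
  have h4 : n - idx f.1.1 + 1 ≤ n - idx e.1.1 := by omega
  have h5 : (n - idx f.1.1 + 1) * (n + 1) ≤ (n - idx e.1.1) * (n + 1) :=
    Nat.mul_le_mul_right _ h4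
  nlinarith

theorem rho_inj {n : ℕ} (hn : ∀ v, idx v < n) (hidx : Function.Injective idx) (e f : E G idx)
    (h : rho G n e = rho G n f) : e = f := by
  have h1 : idx e.1.1 = idx f.1.1 :=
    le_antisymm (rho_mono G hn f e h.ge) (rho_mono G hn e f h.le)
  have h2 : idx e.1.2 = idx f.1.2 := by
    unfold rho at h
    rw [h1] at h
    omega
  exact Subtype.ext (Prod.ext (hidx h1) (hidx h2))

/-- the grid paths: `n` is larger than all indices and `R` larger than all ranks -/
def rep (n R : ℕ) : W G idx → GridPath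
  | Sum.inl v => ell (2 * idx v) (-2 * idx v) 1 1 (2 * n + 2 * R + 4) (2 * n + 2 * R + 4)
      (Or.inl rfl) (Or.inl rfl)
  | Sum.inr (Sum.inl e) => ell (2 * n + 2 * rho G n e) (1 - 2 * idx e.1.1) (-1) 1
      (2 * n + 2 * rho G n e - (2 * idx e.1.1 + 1)) (2 * (R - rho G n e) + 2 * idx e.1.1)
      (Or.inr rfl) (Or.inl rfl)
  | Sum.inr (Sum.inr e) => ell (2 * n + 2 * rho G n e + 1) (2 + 2 * ((R : ℤ) - rho G n e)) (-1) (-1)
      (2 * n + 2 * rho G n e + 1 - (2 * idx e.1.2 + 1))
      (1 + 2 * (R - rho G n e) + 2 * idx e.1.2)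
      (Or.inr rfl) (Or.inr rfl)


theorem meet_aa {n R : ℕ} (hn : ∀ v, idx v < n) (v w : V) (h : idx v ≤ idx w) :
    ((rep G n R (Sum.inl v : W G idx)).points ∩ (rep G n R (Sum.inl w : W G idx)).points).Nonempty
      := by
  have h1 := hn v
  have h2 := hn w
  refine ⟨(2 * idx w, -2 * idx v), ?_, ?_⟩
  · unfold rep
    rw [mem_ell]
    refine Or.inl ⟨rfl, 2 * idx w - 2 * idx v, by omega, ?_⟩
    simp only
    omega
  · unfold rep
    rw [mem_ell]
    refine Or.inr ⟨rfl, 2 * idx w - 2 * idx v, by omega, ?_⟩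
    simp only
    omega

theorem meet_bb {n R : ℕ} (hn : ∀ v, idx v < n) (e f : E G idx) (hR : rho G n f < R)
    (h : rho G n e ≤ rho G n f) :
    ((rep G n R (Sum.inr (Sum.inl e) : W G idx)).points ∩
      (rep G n R (Sum.inr (Sum.inl f) : W G idx)).points).Nonempty := by
  have h1 := hn e.1.1
  have h2 := hn f.1.1
  have h3 := rho_mono G hn e f h
  refine ⟨(2 * n + 2 * rho G n e, 1 - 2 * idx f.1.1), ?_, ?_⟩
  · unfold rep
    rw [mem_ell]
    refine Or.inr ⟨rfl, 2 * idx e.1.1 - 2 * idx f.1.1, by omega, ?_⟩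
    simp only
    omega
  · unfold rep
    rw [mem_ell]
    refine Or.inl ⟨rfl, 2 * rho G n f - 2 * rho G n e, by omega, ?_⟩
    simp only
    omega

theorem meet_dd {n R : ℕ} (hn : ∀ v, idx v < n) (e f : E G idx) (hR : rho G n f < R)
    (h : rho G n e ≤ rho G n f) :
    ((rep G n R (Sum.inr (Sum.inr e) : W G idx)).points ∩
      (rep G n R (Sum.inr (Sum.inr f) : W G idx)).points).Nonempty := by
  have h1 := hn e.1.2
  have h2 := hn f.1.2
  refine ⟨(2 * n + 2 * rho G n e + 1, 2 + 2 * ((R : ℤ) - rho G n f)), ?_, ?_⟩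
  · unfold rep
    rw [mem_ell]
    refine Or.inr ⟨rfl, 2 * rho G n f - 2 * rho G n e, by omega, ?_⟩
    simp only
    omega
  · unfold rep
    rw [mem_ell]
    refine Or.inl ⟨rfl, 2 * rho G n f - 2 * rho G n e, by omega, ?_⟩
    simp only
    omega

theorem meet_ab {n R : ℕ} (hn : ∀ v, idx v < n) (v : V) (e : E G idx) (hR : rho G n e < R) :
    ((rep G n R (Sum.inl v : W G idx)).points ∩
      (rep G n R (Sum.inr (Sum.inl e) : W G idx)).points).Nonempty ↔ idx v ≠ idx e.1.1 := by
  have h1 := hn v
  have h2 := hn e.1.1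
  constructor
  · rintro ⟨q, hq1, hq2⟩ he
    unfold rep at hq1 hq2
    rw [mem_ell] at hq1 hq2
    rcases hq1 with ⟨a1, k, hk, a2⟩ | ⟨a1, k, hk, a2⟩ <;>
    rcases hq2 with ⟨b1, l, hl, b2⟩ | ⟨b1, l, hl, b2⟩ <;> omega
  · intro hne
    rcases Nat.lt_or_gt_of_ne hne with h | h
    · refine ⟨(2 * n + 2 * rho G n e, -2 * idx v), ?_, ?_⟩
      · unfold rep
        rw [mem_ell]
        refine Or.inl ⟨rfl, 2 * n + 2 * rho G n e - 2 * idx v, by omega, ?_⟩
        simp only
        omega
      · unfold rep
        rw [mem_ell]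
        refine Or.inr ⟨rfl, 2 * idx e.1.1 - 2 * idx v - 1, by omega, ?_⟩
        simp only
        omega
    · refine ⟨(2 * idx v, 1 - 2 * idx e.1.1), ?_, ?_⟩
      · unfold rep
        rw [mem_ell]
        refine Or.inr ⟨rfl, 2 * idx v + 1 - 2 * idx e.1.1, by omega, ?_⟩
        simp only
        omega
      · unfold rep
        rw [mem_ell]
        refine Or.inl ⟨rfl, 2 * n + 2 * rho G n e - 2 * idx v, by omega, ?_⟩
        simp only
        omega

theorem meet_ad {n R : ℕ} (hn : ∀ v, idx v < n) (v : V) (e : E G idx) (hR : rho G n e < R) :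
    ((rep G n R (Sum.inl v : W G idx)).points ∩
      (rep G n R (Sum.inr (Sum.inr e) : W G idx)).points).Nonempty ↔ idx v ≠ idx e.1.2 := by
  have h1 := hn v
  have h2 := hn e.1.2
  constructor
  · rintro ⟨q, hq1, hq2⟩ he
    unfold rep at hq1 hq2
    rw [mem_ell] at hq1 hq2
    rcases hq1 with ⟨a1, k, hk, a2⟩ | ⟨a1, k, hk, a2⟩ <;>
    rcases hq2 with ⟨b1, l, hl, b2⟩ | ⟨b1, l, hl, b2⟩ <;> omega
  · intro hne
    rcases Nat.lt_or_gt_of_ne hne with h | h
    · refine ⟨(2 * n + 2 * rho G n e + 1, -2 * idx v), ?_, ?_⟩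
      · unfold rep
        rw [mem_ell]
        refine Or.inl ⟨rfl, 2 * n + 2 * rho G n e + 1 - 2 * idx v, by omega, ?_⟩
        simp only
        omega
      · unfold rep
        rw [mem_ell]
        refine Or.inr ⟨rfl, 2 + 2 * (R - rho G n e) + 2 * idx v, by omega, ?_⟩
        simp only
        omega
    · refine ⟨(2 * idx v, 2 + 2 * ((R : ℤ) - rho G n e)), ?_, ?_⟩
      · unfold rep
        rw [mem_ell]
        refine Or.inr ⟨rfl, 2 + 2 * (R - rho G n e) + 2 * idx v, by omega, ?_⟩
        simp only
        omega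
      · unfold rep
        rw [mem_ell]
        refine Or.inl ⟨rfl, 2 * n + 2 * rho G n e + 1 - 2 * idx v, by omega, ?_⟩
        simp only
        omega

theorem meet_bd {n R : ℕ} (hn : ∀ v, idx v < n) (hidx : Function.Injective idx) (e f : E G idx)
    (hR : rho G n e < R) (hR' : rho G n f < R) :
    ((rep G n R (Sum.inr (Sum.inl e) : W G idx)).points ∩
      (rep G n R (Sum.inr (Sum.inr f) : W G idx)).points).Nonempty ↔ e ≠ f := by
  have h1 := hn e.1.1
  have h2 := hn f.1.2
  constructor
  · rintro ⟨q, hq1, hq2⟩ he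
    subst he
    unfold rep at hq1 hq2
    rw [mem_ell] at hq1 hq2
    rcases hq1 with ⟨a1, k, hk, a2⟩ | ⟨a1, k, hk, a2⟩ <;>
    rcases hq2 with ⟨b1, l, hl, b2⟩ | ⟨b1, l, hl, b2⟩ <;> omega
  · intro hne
    have hne' : rho G n e ≠ rho G n f := fun h => hne (rho_inj G hn hidx e f h)
    rcases Nat.lt_or_gt_of_ne hne' with h | h
    · refine ⟨(2 * n + 2 * rho G n e, 2 + 2 * ((R : ℤ) - rho G n f)), ?_, ?_⟩
      · unfold rep
        rw [mem_ell]
        refine Or.inr ⟨rfl, 2 * (R - rho G n f) + 2 * idx e.1.1 + 1, by omega, ?_⟩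
        simp only
        omega
      · unfold rep
        rw [mem_ell]
        refine Or.inl ⟨rfl, 2 * rho G n f + 1 - 2 * rho G n e, by omega, ?_⟩
        simp only
        omega
    · have h3 := rho_mono G hn f e h.le
      have h4 := f.2.1
      refine ⟨(2 * n + 2 * rho G n f + 1, 1 - 2 * idx e.1.1), ?_, ?_⟩
      · unfold rep
        rw [mem_ell]
        refine Or.inl ⟨rfl, 2 * rho G n e - 2 * rho G n f - 1, by omega, ?_⟩
        simp only
        omega
      · unfold rep
        rw [mem_ell]
        refine Or.inr ⟨rfl, 1 + 2 * (R - rho G n f) + 2 * idx e.1.1, by omega, ?_⟩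
        simp only
        omega

theorem b1vpg_sub {n : ℕ} (hn : ∀ v, idx v < n) (hidx : Function.Injective idx) :
    IsB1VPG (sub G idx)ᶜ := by
  have hR : ∀ e : E G idx, rho G n e < (n + 1) * (n + 1) := rho_lt G hn
  refine ⟨rep G n ((n + 1) * (n + 1)), ?_, ?_⟩
  · rintro (v | e | e)
    · refine ⟨by unfold rep; simp only [ell]; omega, fun i j hi hj => ?_⟩
      unfold rep at hi hj
      exact (bend_ell hi).trans (bend_ell hj).symm
    · have := hn e.1.1
      refine ⟨by unfold rep; simp only [ell]; omega, fun i j hi hj => ?_⟩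
      unfold rep at hi hj
      exact (bend_ell hi).trans (bend_ell hj).symm
    · refine ⟨by unfold rep; simp only [ell]; omega, fun i j hi hj => ?_⟩
      unfold rep at hi hj
      exact (bend_ell hi).trans (bend_ell hj).symm
  · have key : ∀ a b : W G idx, a ≠ b →
        ((rep G n ((n + 1) * (n + 1)) a).points ∩
          (rep G n ((n + 1) * (n + 1)) b).points).Nonempty →
        ((rep G n ((n + 1) * (n + 1)) b).points ∩
          (rep G n ((n + 1) * (n + 1)) a).points).Nonempty := by
      intro a b _ h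
      rwa [Set.inter_comm]
    intro a b hab
    rw [SimpleGraph.compl_adj]
    have e1 : (a ≠ b ∧ ¬ (sub G idx).Adj a b) ↔ ¬ adj' G idx a b := by
      constructor
      · exact fun h => h.2
      · exact fun h => ⟨hab, h⟩
    rw [e1]
    rcases a with a | a | a <;> rcases b with b | b | b <;> simp only [adj']
    · refine ⟨fun _ => ?_, fun _ => not_false⟩
      rcases le_total (idx a) (idx b) with h | h
      · exact meet_aa G hn a b h
      · exact key _ _ hab.symm (meet_aa G hn b a h)
    · rw [meet_ab G hn a b (hR b), not_iff_not]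
      exact ⟨fun h => by rw [h], fun h => hidx h⟩
    · rw [meet_ad G hn a b (hR b), not_iff_not]
      exact ⟨fun h => by rw [h], fun h => hidx h⟩
    · rw [Set.inter_comm, meet_ab G hn b a (hR a), not_iff_not]
      exact ⟨fun h => by rw [h], fun h => hidx h⟩
    · refine ⟨fun _ => ?_, fun _ => not_false⟩
      rcases le_total (rho G n a) (rho G n b) with h | h
      · exact meet_bb G hn a b (hR b) h
      · exact key _ _ hab.symm (meet_bb G hn b a (hR a) h)
    · rw [meet_bd G hn hidx a b (hR a) (hR b)]
    · rw [Set.inter_comm, meet_ad G hn b a (hR a), not_iff_not]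
      exact ⟨fun h => by rw [h], fun h => hidx h⟩
    · rw [Set.inter_comm, meet_bd G hn hidx b a (hR b) (hR a)]
      exact ⟨fun h h' => h h'.symm, fun h h' => h h'.symm⟩
    · refine ⟨fun _ => ?_, fun _ => not_false⟩
      rcases le_total (rho G n a) (rho G n b) with h | h
      · exact meet_dd G hn a b (hR b) h
      · exact key _ _ hab.symm (meet_dd G hn b a (hR a) h)

end Sub

/-- **Result.** Every finite simple graph `G`, planar or not, has an even subdivision `G'` whose
complement is a `B₁`-VPG graph (this answers Q2 positively). -/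
theorem result (V : Type) [Fintype V] (G : SimpleGraph V) :
    ∃ (W : Type) (_ : Fintype W) (G' : SimpleGraph W), IsEvenSubdivision G G' ∧ IsB1VPG G'ᶜ := by
  classical
  let idx : V → ℕ := fun v => (Fintype.equivFin V v : ℕ)
  have hidx : Function.Injective idx := fun a b h =>
    (Fintype.equivFin V).injective (Fin.ext h)
  have hn : ∀ v, idx v < Fintype.card V := fun v => (Fintype.equivFin V v).2
  exact ⟨W G idx, inferInstance, sub G idx, even_sub G hidx, b1vpg_sub G hn hidx⟩

end Pool.Agent.Results.MP_401231_co.EvenSubdivisionB1VPG
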